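import Pool.Agent.R882.HTM

/-!
# Weak non-vanishing for the images of smooth complete intersections in products of projective lines

Let `V 0 ⇢ V 1 ⇢ ... ⇢ V k` be a tower (`LinesTower`, `Pool/Agent/R882/HL.lean`) of varieties of
dimension `n ≥ 1`, where `V k` is any uniruled variety, each `V i`, `i < k`, is a smooth complete
intersection, of any codimension `q`, of hypersurfaces of multidegrees `(d_{l,a})`, `l = 1, ..., q`,
in the product of the projective lines with the coordinates `x_a`, `a = 1, ..., n + q`, with
`Σ_l d_{l,a} = m_a + 2`, so that the canonical divisor of `V i` is `O(m_a)`, `m_a ≥ 0`, and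
`V (i + 1)` is birational to the image of `V i` under the projection which forgets one coordinate
`x_{a0}`. (If `V 0` is a smooth hypersurface then `k = 1` and `V 1` is a product of `n` projective
lines. A triangular system `F 1 (t, y 1) = 0`, ..., `F k (t, y 1, ..., y k) = 0`, where
`t = (t 1, ..., t n)`, gives a tower if the first `i` equations define a smooth complete intersection
for all `i`.) It is assumed that `s i ≤ m_a + 1` for all `a ≠ a0`, for the numbers `m_a` of `V i`,
where `s i = s / (b 0 ⋯ b (i - 1))` and `b i` is the degree of `V i` over `V (i + 1)`; nothing is
assumed about `m_{a0}`.

Let `V 0 ⇢ W` be any dominant rational map of degree `r`; nothing is assumed about the map (it need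
not be a quotient by a group, it may be ramified arbitrarily and has no relation to the tower) or about
`W`. The theorem: if the above holds for `s = r` then these are equivalent for the smooth projective
models of `W`: `p_g(W) = 0`; `κ(W) = -∞`; `K_W` is not pseudo-effective; `W` is uniruled. If it holds
for `s = 2 r` then they are also equivalent to: `K_W` is not big. So in the second
case weak non-vanishing holds for all smooth projective `W` (with boundary zero) of this class, and
already in the first case: if `K_W` is pseudo-effective then `p_g(W) > 0`, so `K_W` is numerically
equivalent (even linearly equivalent) to an effective divisor. For a log canonical pair `(W, D)` of this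
class with `K_W` pseudo-effective, `K_W + D` is then also numerically equivalent to an effective
divisor.

Proof: if `W` has geometric genus zero and `V i ⇢ W` is a rational map then it factors through
`V i ⇢ V (i + 1)`, because the traces to `W` of the forms `A x_{a0} ^ j Res`, where `Res` is the
residue form on `V i` and `A` is a polynomial in the other coordinates, are zero; and if `W` is not of
general type then it factors because these traces do not separate the general points of `W`. So `W` is
dominated by `V k`, and it is uniruled.

`K` and `L` are the function fields of `V 0` and `W`. `KodGe ℂ L n ∅ 0` says that `κ(W) ≥ 0`, `Psef` that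
`K_W` is pseudo-effective, `GeneralType` that `K_W` is big (`Pool/Agent/W602/GT`), `IsUniruled` that
`W` is uniruled (`Pool/Agent/W619/PQ/Defs.lean`).
-/

set_option autoImplicit false
set_option linter.overlappingInstances false

open FF Module Pool.Agent.W602.GT
open Pool.Agent.W619.PQ (IsUniruled)
open Pool.Agent.R882.HT (GenusZero)
open Pool.Agent.R882.HL (LinesTower)

namespace Pool.Agent.Results.MP_66b48b_ag.ImagesOfLinesTowers

/-- **Images of complete intersections in products of lines.** Let `K` be the function field of the first variety `V` of a tower of
smooth complete intersections of dimension `n ≥ 1` in products of projective lines over a uniruled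
variety, and let `V ⇢ W` be a dominant rational map of finite degree `r`, `L` the function field of
`W`. If the tower has height `r` then `p_g(W) = 0`, `κ(W) = -∞`, `K_W` not pseudo-effective, `W`
uniruled are equivalent. If it has height `2 r` then these conditions are also equivalent to: `K_W`
is not big. -/
theorem result {n : ℕ} (hn : 1 ≤ n) {K : Type} [Field K] [Algebra ℂ K]
    [Algebra.EssFiniteType ℂ K] (hK : Algebra.trdeg ℂ K = (n : ℕ))
    (L : Type) [Field L] [Algebra ℂ L] [Algebra L K] [IsScalarTower ℂ L K]
    [FiniteDimensional L K] :
    (LinesTower n (fun E _ _ => IsUniruled ℂ E n) K (Module.finrank L K) →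
      [GenusZero L n, ¬ KodGe ℂ L n (fun _ => False) 0, ¬ Psef ℂ L n (fun _ => False),
        IsUniruled ℂ L n].TFAE) ∧
    (LinesTower n (fun E _ _ => IsUniruled ℂ E n) K (2 * Module.finrank L K) →
      [GenusZero L n, ¬ KodGe ℂ L n (fun _ => False) 0, ¬ Psef ℂ L n (fun _ => False),
        ¬ GeneralType ℂ L n, IsUniruled ℂ L n].TFAE) :=
  Pool.Agent.R882.HTM.lines_tfae hn hK L

end Pool.Agent.Results.MP_66b48b_ag.ImagesOfLinesTowers
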